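import Pool.Agent.VMX.StmtsB

/-!
# Squad VMX, row FLS
-/

set_option autoImplicit false

namespace Pool.Agent.VMX.H31

open Matrix Filter Topology
open Pool.Agent.PFS Pool.Agent.PFJ Pool.Agent.NBT Pool.Agent.VMX

theorem fls (hb : SlbStmt) (ha : AlnStmt) (hm : FlmStmt) : FlsStmt := by
  intro n C Γ Γ₀ K p J c F hS j d hjp hjJ Z hZ hbox
  have hpes : ∀ z, F z → IsPES C Γ z := fun z hz => hS.pes z hz
  have hF : ∀ X, Rc C F p J Z X → F (Function.update Z p X) :=
    fun X hX => ((ha n C Γ Γ₀ K p J c F hS Z hZ X).1 hX).1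
  have hslb : ∀ X (hX : Rc C F p J Z X), _ := fun X hX =>
    hb n C Γ hS.cc K hS.three hS.maxc (Function.update Z p X) (hpes _ (hF X hX)) p j hjp.symm
      (Es C F p j (Function.update Z p X)) (hbox X hX).1
  have hYj : ∀ X, Function.update Z p X j = Z j := fun X => Function.update_of_ne hjp X Z
  have hbase : Rc C F p J Z (Z p) := by
    have h := Rc.base (C := C) (F := F) (p := p) (J := J) (z := Z) 1 one_pos
    rwa [one_smul] at h
  let S : (Fin K → V n) → Prop := fun w => ∃ X h', Rc C F p J Z X ∧
    PCO.Bd C (Es C F p j (Function.update Z p X)) h' ∧ (∀ a : ℝ, h' ≠ a • Z j) ∧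
      w = Function.update Z p h'
  refine ⟨S, ⟨?_, ?_⟩, ?_⟩
  · rintro w ⟨X, h', hX, hB, hne, rfl⟩
    have h := ((hslb X hX).2.1 h' hB (fun a => by rw [hYj]; exact hne a)).1
    rwa [Function.update_idem] at h
  · rintro w ⟨X, h', hX, hB, hne, rfl⟩ m hmJ
    have hne' : ∀ a : ℝ, h' ≠ a • Function.update Z p X j := fun a => by
      rw [hYj]; exact hne a
    by_cases hmj : m = j
    · subst hmj
      refine ⟨Es C F p m (Function.update Z p X), ?_, ?_, ?_⟩
      · have h := ((hslb X hX).2.1 h' hB hne').2.2
        rwa [Function.update_idem] at h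
      · rw [Function.update_self]
        exact (hbox X hX).2
      · intro g hg hga
        refine ⟨X, g, hX, hg, fun a => ?_, Function.update_idem _ _ _⟩
        have h := hga a
        rwa [hYj] at h
    · have hmJ' : m ∈ J := by
        rcases Finset.mem_insert.1 hmJ with h | h
        · exact absurd h hmj
        · exact h
      have hmp : m ≠ p := fun h => hS.pJ (h ▸ hmJ')
      have hv : ∀ v, Tm C F p m (Function.update Z p X) v → Rc C F p J Z v :=
        fun v hv => Rc.step X v m hmJ' hX hv
      obtain ⟨E', h1, h2, h3⟩ := hm n C Γ Γ₀ K p J c F hS (Function.update Z p X) (hF X hX) j hjp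
        hjJ m hmJ' (hbox X hX).1 (fun v hTv => by
          rw [Function.update_idem]
          exact (hbox v (hv v hTv)).1) h' hB hne'
      rw [Function.update_idem] at h1
      refine ⟨E', h1, ?_, ?_⟩
      · rw [Function.update_of_ne hmj]
        exact h2
      · intro g hg hga
        obtain ⟨v, hTv, hBv, hgv⟩ := h3 g hg (fun a => by
          have h := hga a
          rw [Function.update_of_ne hmp] at h ⊢
          exact h)
        rw [Function.update_idem] at hBv
        refine ⟨v, g, hv v hTv, hBv, fun a => ?_, Function.update_idem _ _ _⟩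
        have h := hgv a
        rwa [hYj] at h
  · have h4 := (hslb (Z p) hbase).2.2.2.1
    have h3 := (hslb (Z p) hbase).2.2.1
    rw [Function.update_eq_self] at h3 h4
    have h5 := h3 (Z p) h4.1 (by rw [Function.update_eq_self]; exact hpes Z hZ)
    refine ⟨Z p, Z p, hbase, ?_, h5.2, (Function.update_eq_self p Z).symm⟩
    rw [Function.update_eq_self]
    exact h5.1

end Pool.Agent.VMX.H31
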